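import Pool.Agent.Helper70.DGL.Fr
import Pool.Agent.Helper68.DG.Base

/-! Project DGL: cutoffs for balls -/

set_option autoImplicit false

open MeasureTheory Metric Set Filter Topology
open scoped ContDiff

namespace Pool.Agent.Helper29.DGL

open Pool.Agent.Helper68.DG Pool.Agent.Helper70.DGL

theorem integral_scaled {κ : Type} [Fintype κ] (f : V κ → ℝ) {R : ℝ} (hR : 0 < R) (a : V κ) :
    ∫ z, f (R⁻¹ • (z - a)) = R ^ Fintype.card κ * ∫ z, f z := by
  rw [integral_sub_right_eq_self (fun z => f (R⁻¹ • z)) a,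
    Measure.integral_comp_inv_smul_of_nonneg volume f hR.le, smul_eq_mul,
    finrank_euclideanSpace]

theorem fderiv_scaled {κ : Type} [Fintype κ] (b : V κ → ℝ) (c : ℝ) (a z : V κ) :
    fderiv ℝ (fun z => b (c • (z - a))) z = c • fderiv ℝ b (c • (z - a)) := by
  have h1 : (fun z => b (c • (z - a))) = fun z => (fun w => b (c • w)) (z + (-a)) := by
    funext z
    rw [← sub_eq_add_neg]
  have h2 : fderiv ℝ (fun z => (fun w => b (c • w)) (z + (-a))) z =
      fderiv ℝ (fun w => b (c • w)) (z + (-a)) :=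
    fderiv_comp_add_right (𝕜 := ℝ) (f := fun w : V κ => b (c • w)) (x := z) (-a)
  rw [h1, h2, ← sub_eq_add_neg, fderiv_comp_smul]

/-- CH: cutoffs for balls -/
theorem s_CH : S_CH := by
  intro κ _
  let b : ContDiffBump (0 : V κ) := ⟨1, 2, one_pos, one_lt_two⟩
  have hb : ContDiff ℝ 1 (b : V κ → ℝ) := b.contDiff
  have hd : Continuous (fderiv ℝ (b : V κ → ℝ)) := hb.continuous_fderiv one_ne_zero
  have hds : HasCompactSupport (fderiv ℝ (b : V κ → ℝ)) := b.hasCompactSupport.fderiv ℝ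
  obtain ⟨M, hM⟩ := hds.exists_bound_of_continuous hd
  have hM0 : 0 ≤ M := (norm_nonneg _).trans (hM 0)
  set I0 : ℝ := ∫ z, b z with hI0
  set I1 : ℝ := ∫ z, ‖fderiv ℝ (b : V κ → ℝ) z‖ with hI1
  set I2 : ℝ := ∫ z, ‖fderiv ℝ (b : V κ → ℝ) z‖ ^ 2 with hI2
  have h0 : 0 ≤ I0 := integral_nonneg fun z => b.nonneg
  have h1 : 0 ≤ I1 := integral_nonneg fun z => norm_nonneg _
  have h2 : 0 ≤ I2 := integral_nonneg fun z => by positivity
  refine ⟨M + I0 + I1 + I2, by positivity, fun R hR a => ?_⟩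
  have hR0 : 0 < R := one_pos.trans_le hR
  have hRi : 0 < R⁻¹ := inv_pos.2 hR0
  have hf : ∀ z, fderiv ℝ (fun z => b (R⁻¹ • (z - a))) z =
      R⁻¹ • fderiv ℝ (b : V κ → ℝ) (R⁻¹ • (z - a)) := fun z => fderiv_scaled b R⁻¹ a z
  have hn : ∀ z, ‖fderiv ℝ (fun z => b (R⁻¹ • (z - a))) z‖ =
      R⁻¹ * ‖fderiv ℝ (b : V κ → ℝ) (R⁻¹ • (z - a))‖ := by
    intro z
    rw [hf, norm_smul, Real.norm_eq_abs, abs_of_pos hRi]
  have hnorm : ∀ z : V κ, ‖R⁻¹ • (z - a)‖ = ‖z - a‖ / R := by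
    intro z
    rw [norm_smul, Real.norm_eq_abs, abs_of_pos hRi]
    field_simp
  have hcs : HasCompactSupport fun z => b (R⁻¹ • (z - a)) := by
    apply HasCompactSupport.of_support_subset_isCompact (isCompact_closedBall a (2 * R))
    intro z hz
    rw [mem_closedBall, dist_eq_norm]
    by_contra hcon
    push Not at hcon
    apply hz
    apply b.zero_of_le_dist
    rw [dist_zero_right, hnorm, le_div_iff₀ hR0]
    exact hcon.le
  refine ⟨fun z => b (R⁻¹ • (z - a)), ⟨?_, hcs⟩, fun z => ⟨b.nonneg, b.le_one⟩, fun z hz => ?_,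
    fun z hz => ?_, fun z => ?_, ?_, ?_, ?_⟩
  · exact hb.comp ((contDiff_id.sub contDiff_const).const_smul R⁻¹)
  · apply b.one_of_mem_closedBall
    rw [mem_closedBall, dist_zero_right, hnorm]
    exact (div_le_one hR0).2 hz
  · apply b.zero_of_le_dist
    rw [dist_zero_right, hnorm, le_div_iff₀ hR0]
    exact hz
  · rw [hn, div_eq_inv_mul]
    have := hM (R⁻¹ • (z - a))
    exact mul_le_mul_of_nonneg_left (by linarith) hRi.le
  · rw [integral_scaled (fun z => b z) hR0 a, mul_comm]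
    exact mul_le_mul_of_nonneg_right (by linarith) (by positivity)
  · simp only [hn]
    rw [integral_const_mul, integral_scaled (fun z => ‖fderiv ℝ (b : V κ → ℝ) z‖) hR0 a]
    rw [div_eq_inv_mul]
    have h3 : R⁻¹ * (R ^ Fintype.card κ * I1) = R⁻¹ * I1 * R ^ Fintype.card κ := by ring
    rw [h3]
    exact mul_le_mul_of_nonneg_right (mul_le_mul_of_nonneg_left (by linarith) hRi.le)
      (by positivity)
  · simp only [hn, mul_pow]
    rw [integral_const_mul, integral_scaled (fun z => ‖fderiv ℝ (b : V κ → ℝ) z‖ ^ 2) hR0 a]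
    rw [div_eq_inv_mul]
    have h3 : R⁻¹ ^ 2 * (R ^ Fintype.card κ * I2) = (R ^ 2)⁻¹ * I2 * R ^ Fintype.card κ := by
      rw [inv_pow]
      ring
    rw [h3]
    exact mul_le_mul_of_nonneg_right (mul_le_mul_of_nonneg_left (by linarith) (by positivity))
      (by positivity)

end Pool.Agent.Helper29.DGL
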