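import Pool.Agent.Helper70.DGL.Fr

/-! Project DGL: thinning of separated sets -/

set_option autoImplicit false

open MeasureTheory Metric Set Filter Topology
open scoped ContDiff

namespace Pool.Agent.Helper29.DGL

open Pool.Agent.Helper68.DG Pool.Agent.Helper70.DGL

/-- the number of points of a separated set in a ball is bounded -/
theorem sep_card (κ : Type) [Fintype κ] (D : ℝ) : ∃ N : ℕ, ∀ (a : V κ) (S : Finset (V κ)),
    Sep 1 S → (∀ x ∈ S, ‖x - a‖ ≤ D) → S.card ≤ N := by
  classical
  obtain ⟨T, -, hT⟩ := (isCompact_closedBall (0 : V κ) D).elim_nhds_subcover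
    (fun x => ball x (1 / 2)) (fun x _ => ball_mem_nhds x (by norm_num))
  refine ⟨T.card, fun a S hS ha => ?_⟩
  have h1 : ∀ x ∈ S, ∃ t ∈ T, ‖x - a - t‖ < 1 / 2 := by
    intro x hx
    have h2 : x - a ∈ closedBall (0 : V κ) D := by
      rw [mem_closedBall, dist_zero_right]
      exact ha x hx
    have h3 := hT h2
    simp only [mem_iUnion] at h3
    obtain ⟨t, ht, h4⟩ := h3
    refine ⟨t, ht, ?_⟩
    rw [mem_ball, dist_eq_norm] at h4
    exact h4
  choose! f hf hf' using h1
  refine Finset.card_le_card_of_injOn f (fun x hx => hf x hx) ?_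
  intro x hx y hy hxy
  by_contra hne
  have h5 := hS x hx y hy hne
  have h6 := hf' x hx
  have h7 := hf' y hy
  have hxy' : f x = f y := hxy
  rw [← hxy'] at h7
  have h8 : x - y = (x - a - f x) - (y - a - f x) := by abel
  have h9 : ‖x - y‖ ≤ ‖x - a - f x‖ + ‖y - a - f x‖ := by
    rw [h8]
    exact norm_sub_le _ _
  linarith

/-- TH: thinning -/
theorem s_TH : S_TH := by
  classical
  intro κ _ D
  obtain ⟨N, hN⟩ := sep_card κ |D|
  refine ⟨N + 1, by positivity, fun S hS => ?_⟩
  -- a separated subset with the largest number of elements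
  obtain ⟨S', hS', hmax⟩ := Finset.exists_max_image (S.powerset.filter fun T => Sep D T)
    Finset.card ⟨∅, by
      rw [Finset.mem_filter, Finset.mem_powerset]
      exact ⟨Finset.empty_subset _, fun x hx => absurd hx (Finset.notMem_empty x)⟩⟩
  rw [Finset.mem_filter, Finset.mem_powerset] at hS'
  obtain ⟨hsub, hsep⟩ := hS'
  refine ⟨S', hsub, hsep, ?_⟩
  have h1 : ∀ x ∈ S, ∃ s ∈ S', ‖x - s‖ ≤ |D| := by
    intro x hx
    by_contra hcon
    push Not at hcon
    have hxS : x ∉ S' := by
      intro h
      have := hcon x h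
      rw [sub_self, norm_zero] at this
      exact absurd this (not_lt.2 (abs_nonneg D))
    have h2 : insert x S' ∈ S.powerset.filter fun T => Sep D T := by
      rw [Finset.mem_filter, Finset.mem_powerset]
      refine ⟨Finset.insert_subset hx hsub, ?_⟩
      intro y hy z hz hyz
      rw [Finset.mem_insert] at hy hz
      rcases hy with rfl | hy <;> rcases hz with rfl | hz
      · exact absurd rfl hyz
      · exact (le_abs_self D).trans (hcon z hz).le
      · rw [norm_sub_rev]
        exact (le_abs_self D).trans (hcon y hy).le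
      · exact hsep y hy z hz hyz
    have h3 := hmax _ h2
    rw [Finset.card_insert_of_notMem hxS] at h3
    omega
  choose! f hf hf' using h1
  have h2 : S.card ≤ N * S'.card := by
    refine Finset.card_le_mul_card_image_of_maps_to (f := f) (fun x hx => hf x hx) N ?_
    intro s _
    refine hN s _ ?_ ?_
    · intro x hx y hy hxy
      rw [Finset.mem_filter] at hx hy
      exact hS x hx.1 y hy.1 hxy
    · intro x hx
      rw [Finset.mem_filter] at hx
      have := hf' x hx.1
      rwa [hx.2] at this
  have h3 : (S.card : ℝ) ≤ N * S'.card := by exact_mod_cast h2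
  refine h3.trans ?_
  have h4 : (0 : ℝ) ≤ S'.card := by positivity
  nlinarith

end Pool.Agent.Helper29.DGL
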